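import Mathlib

/-!
# MP_dd6dde_co : equality of the variable Szeged and Wiener indices at several exponents

For a finite connected graph `G` the variable Wiener index `W^α(G)` is the sum of `d(x,y)^α` over
the unordered pairs of distinct vertices, and the variable Szeged index `Sz^α(G)` is the sum of
`(n_u(e) n_v(e))^α` over the edges `e = uv`.  The problem asks whether for every connected
non-complete graph there is exactly one real `α` with `Sz^α(G) = W^α(G)`.

We prove that the answer is no.  The counterexample is the cocktail party graph `K_{2,2,...,2}` on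
`2a` vertices, all of whose vertices are joined to the first vertex of a path with `D` vertices,
for `a = 5 * 10^16` and `D = 2 * 10^12`; the difference `Sz^α - W^α` is negative at `α = 0`,
positive at `α = 1/4` and negative at `α = 1/2`.
-/

namespace Pool.Agent.Results.MP_dd6dde_co.TwoZeros

open Finset

section Defs

variable {V : Type} [Fintype V]

open Classical in
/-- `n_u(e)` for an edge `e = uv`: the number of vertices `w` with `d(w,u) < d(w,v)`. -/
noncomputable def nCloser (G : SimpleGraph V) (u v : V) : ℕ :=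
  (univ.filter (fun w : V => G.dist w u < G.dist w v)).card

/-- The summand `d(x,y)^α` as a function of the unordered pair `{x,y}`. -/
noncomputable def wienerTerm (G : SimpleGraph V) (α : ℝ) : Sym2 V → ℝ :=
  Sym2.lift ⟨fun x y => (G.dist x y : ℝ) ^ α, fun x y => by
    simp only [SimpleGraph.dist_comm]⟩

/-- The summand `(n_u(e) n_v(e))^α` as a function of the unordered pair `e = {u,v}`. -/
noncomputable def szegedTerm (G : SimpleGraph V) (α : ℝ) : Sym2 V → ℝ :=
  Sym2.lift ⟨fun u v => ((nCloser G u v : ℝ) * (nCloser G v u : ℝ)) ^ α,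
    fun u v => by simp only [mul_comm]⟩

open Classical in
/-- The variable Wiener index: the sum of `d(x,y)^α` over the unordered pairs of distinct
vertices. -/
noncomputable def variableWiener (G : SimpleGraph V) (α : ℝ) : ℝ :=
  ∑ p ∈ univ.filter (fun p : Sym2 V => ¬ p.IsDiag), wienerTerm G α p

open Classical in
/-- The variable Szeged index: the sum of `(n_u(e) n_v(e))^α` over the edges `e = uv`. -/
noncomputable def variableSzeged (G : SimpleGraph V) (α : ℝ) : ℝ :=
  ∑ e ∈ G.edgeFinset, szegedTerm G α e

end Defs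

section General

variable {V : Type} [Fintype V]

open Classical in
lemma two_mul_sum_sym2 (P : Sym2 V → Prop) [DecidablePred P] (hP : ∀ p, P p → ¬ p.IsDiag)
    (f : Sym2 V → ℝ) :
    2 * ∑ p ∈ univ.filter P, f p = ∑ x : V, ∑ y : V, if P s(x, y) then f s(x, y) else 0 := by
  rw [← Fintype.sum_prod_type' (f := fun x y : V => if P s(x, y) then f s(x, y) else 0),
    ← Finset.sum_filter, ← Finset.sum_fiberwise_of_maps_to
      (s := univ.filter (fun q : V × V => P s(q.1, q.2))) (t := univ.filter P)
      (g := fun q => s(q.1, q.2)) (by intro q hq; simpa using hq), Finset.mul_sum]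
  refine Finset.sum_congr rfl fun p hp => ?_
  have hp' : P p := by simpa using hp
  induction p using Sym2.ind with
  | _ a b =>
    have hab : a ≠ b := by simpa using hP _ hp'
    have : (univ.filter (fun q : V × V => P s(q.1, q.2))).filter
        (fun q => s(q.1, q.2) = s(a, b)) = {(a, b), (b, a)} := by
      ext ⟨x, y⟩
      simp only [mem_filter, mem_univ, true_and, mem_insert, mem_singleton, Prod.mk.injEq,
        Sym2.eq_iff]
      constructor
      · rintro ⟨_, h⟩
        exact h
      · rintro (⟨rfl, rfl⟩ | ⟨rfl, rfl⟩)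
        · exact ⟨hp', Or.inl ⟨rfl, rfl⟩⟩
        · exact ⟨by rwa [Sym2.eq_swap], Or.inr ⟨rfl, rfl⟩⟩
    rw [this, Finset.sum_insert (by simp [hab]), Finset.sum_singleton]
    have h2 : s(b, a) = s(a, b) := Sym2.eq_swap
    simp only [h2]
    ring

open Classical in
lemma two_mul_wiener_aux (G : SimpleGraph V) (α : ℝ) :
    2 * variableWiener G α = ∑ x : V, ∑ y : V, if x ≠ y then (G.dist x y : ℝ) ^ α else 0 := by
  unfold variableWiener
  rw [two_mul_sum_sym2 (fun p : Sym2 V => ¬ p.IsDiag) (fun p hp => hp)]
  refine Finset.sum_congr rfl fun x _ => Finset.sum_congr rfl fun y _ => ?_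
  by_cases h : x = y <;> simp [h, wienerTerm]

lemma two_mul_wiener [DecidableEq V] (G : SimpleGraph V) (α : ℝ) :
    2 * variableWiener G α = ∑ x : V, ∑ y : V, if x ≠ y then (G.dist x y : ℝ) ^ α else 0 := by
  rw [two_mul_wiener_aux]
  refine Finset.sum_congr rfl fun x _ => Finset.sum_congr rfl fun y _ => ?_
  by_cases h : x = y <;> simp [h]

open Classical in
lemma two_mul_szeged_aux (G : SimpleGraph V) (α : ℝ) :
    2 * variableSzeged G α = ∑ x : V, ∑ y : V,
      if G.Adj x y then ((nCloser G x y : ℝ) * (nCloser G y x : ℝ)) ^ α else 0 := by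
  unfold variableSzeged
  have : G.edgeFinset = univ.filter (fun e : Sym2 V => e ∈ G.edgeSet) := by
    ext e; simp
  rw [this, two_mul_sum_sym2 (fun e : Sym2 V => e ∈ G.edgeSet)
    (fun p hp => G.not_isDiag_of_mem_edgeSet hp)]
  refine Finset.sum_congr rfl fun x _ => Finset.sum_congr rfl fun y _ => ?_
  by_cases h : G.Adj x y <;> simp [h, szegedTerm]

lemma two_mul_szeged (G : SimpleGraph V) [DecidableRel G.Adj] (α : ℝ) :
    2 * variableSzeged G α = ∑ x : V, ∑ y : V,
      if G.Adj x y then ((nCloser G x y : ℝ) * (nCloser G y x : ℝ)) ^ α else 0 := by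
  rw [two_mul_szeged_aux]
  refine Finset.sum_congr rfl fun x _ => Finset.sum_congr rfl fun y _ => ?_
  by_cases h : G.Adj x y <;> simp [h]

lemma nCloser_pos (G : SimpleGraph V) (hG : G.Connected) {u v : V} (h : u ≠ v) :
    0 < nCloser G u v := by
  classical
  unfold nCloser
  rw [Finset.card_pos]
  refine ⟨u, ?_⟩
  simp only [mem_filter, mem_univ, true_and, SimpleGraph.dist_self]
  exact hG.pos_dist_of_ne h

lemma nCloser_le (G : SimpleGraph V) (u v : V) : nCloser G u v ≤ Fintype.card V := by
  classical
  unfold nCloser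
  exact Finset.card_le_univ _

lemma continuous_wiener (G : SimpleGraph V) (hG : G.Connected) :
    Continuous (fun α => variableWiener G α) := by
  classical
  unfold variableWiener
  refine continuous_finsetSum _ fun p hp => ?_
  induction p using Sym2.ind with
  | _ a b =>
    have hab : a ≠ b := by simpa using hp
    have : 0 < G.dist a b := hG.pos_dist_of_ne hab
    simp only [wienerTerm, Sym2.lift_mk]
    exact Real.continuous_const_rpow (by positivity)

lemma continuous_szeged (G : SimpleGraph V) (hG : G.Connected) :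
    Continuous (fun α => variableSzeged G α) := by
  classical
  unfold variableSzeged
  refine continuous_finsetSum _ fun p hp => ?_
  induction p using Sym2.ind with
  | _ a b =>
    have hab : G.Adj a b := by simpa using hp
    have h1 : 0 < nCloser G a b := nCloser_pos G hG hab.ne
    have h2 : 0 < nCloser G b a := nCloser_pos G hG hab.ne'
    simp only [szegedTerm, Sym2.lift_mk]
    exact Real.continuous_const_rpow (by positivity)

/-- at exponent `0` the Szeged index is smaller as soon as the graph is not complete -/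
lemma zero_neg (G : SimpleGraph V) (hne : G ≠ ⊤) :
    variableSzeged G 0 < variableWiener G 0 := by
  classical
  have h1 : variableSzeged G 0 = (G.edgeFinset.card : ℝ) := by
    unfold variableSzeged
    rw [Finset.sum_congr rfl (g := fun _ => (1 : ℝ))]
    · simp
    · intro e _
      induction e using Sym2.ind with
      | _ a b => simp [szegedTerm]
  have h2 : variableWiener G 0 = ((univ.filter (fun p : Sym2 V => ¬ p.IsDiag)).card : ℝ) := by
    unfold variableWiener
    rw [Finset.sum_congr rfl (g := fun _ => (1 : ℝ))]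
    · simp
    · intro e _
      induction e using Sym2.ind with
      | _ a b => simp [wienerTerm]
  rw [h1, h2]
  norm_cast
  refine Finset.card_lt_card ⟨?_, ?_⟩
  · intro e he
    simp only [SimpleGraph.mem_edgeFinset] at he
    simp only [mem_filter, mem_univ, true_and]
    exact G.not_isDiag_of_mem_edgeSet he
  · intro hsub
    apply hne
    ext x y
    simp only [SimpleGraph.top_adj]
    refine ⟨fun h => h.ne, fun h => ?_⟩
    have := @hsub s(x, y) (by simpa using h)
    simpa using this

end General

section Graph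

variable (a D : ℕ)

/-- The vertices: `(i, b)` with `i < a` form the cocktail party graph, the elements of `Fin D`
form the path. -/
abbrev Vert := (Fin a × Bool) ⊕ Fin D

/-- Adjacency of the counterexample. -/
def adj : Vert a D → Vert a D → Prop
  | Sum.inl x, Sum.inl y => x.1 ≠ y.1
  | Sum.inl _, Sum.inr q => q.val = 0
  | Sum.inr p, Sum.inl _ => p.val = 0
  | Sum.inr p, Sum.inr q => p.val + 1 = q.val ∨ q.val + 1 = p.val

/-- The cocktail party graph on `2a` vertices, all joined to the first vertex of a path with `D`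
vertices. -/
def gr : SimpleGraph (Vert a D) where
  Adj := adj a D
  symm := ⟨by
    rintro (x | p) (y | q) h
    · exact Ne.symm h
    · exact h
    · exact h
    · exact Or.symm h⟩
  loopless := ⟨by
    rintro (x | p) h
    · exact h rfl
    · rcases h with h | h <;> omega⟩

variable {a D}

@[simp] lemma adj_ll (x y : Fin a × Bool) :
    (gr a D).Adj (Sum.inl x) (Sum.inl y) ↔ x.1 ≠ y.1 := Iff.rfl
@[simp] lemma adj_lr (x : Fin a × Bool) (q : Fin D) :
    (gr a D).Adj (Sum.inl x) (Sum.inr q) ↔ q.val = 0 := Iff.rfl
@[simp] lemma adj_rl (p : Fin D) (x : Fin a × Bool) :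
    (gr a D).Adj (Sum.inr p) (Sum.inl x) ↔ p.val = 0 := Iff.rfl
@[simp] lemma adj_rr (p q : Fin D) :
    (gr a D).Adj (Sum.inr p) (Sum.inr q) ↔ (p.val + 1 = q.val ∨ q.val + 1 = p.val) := Iff.rfl

lemma reach (hD : 0 < D) (v : Vert a D) :
    (gr a D).Reachable (Sum.inr ⟨0, hD⟩) v := by
  have hpath : ∀ n : ℕ, ∀ hn : n < D,
      (gr a D).Reachable (Sum.inr ⟨0, hD⟩) (Sum.inr ⟨n, hn⟩) := by
    intro n
    induction n with
    | zero => intro _; exact SimpleGraph.Reachable.refl _
    | succ n ih =>
      intro hn
      refine (ih (by omega)).trans (SimpleGraph.Adj.reachable ?_)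
      simp
  rcases v with x | p
  · exact SimpleGraph.Adj.reachable (by simp)
  · exact hpath p.val p.isLt

lemma connected (hD : 0 < D) : (gr a D).Connected where
  preconnected := fun u v => (reach hD u).symm.trans (reach hD v)
  nonempty := ⟨Sum.inr ⟨0, hD⟩⟩

/-- a potential which changes by at most one along edges -/
def pot : Vert a D → ℤ
  | Sum.inl _ => -1
  | Sum.inr p => p.val

lemma pot_adj {u v : Vert a D} (h : (gr a D).Adj u v) : |pot u - pot v| ≤ 1 := by
  rcases u with x | p <;> rcases v with y | q
  · simp [pot]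
  · simp only [adj_lr] at h; simp [pot, h]
  · simp only [adj_rl] at h; simp [pot, h]
  · simp only [adj_rr] at h
    simp only [pot]
    rw [abs_le]
    constructor <;> omega

lemma pot_walk {u v : Vert a D} (w : (gr a D).Walk u v) : |pot u - pot v| ≤ w.length := by
  induction w with
  | nil => simp
  | cons h w ih =>
    have h1 := pot_adj h
    rw [abs_le] at *
    simp only [SimpleGraph.Walk.length_cons]
    push_cast
    constructor <;> omega

lemma pot_dist (hD : 0 < D) (u v : Vert a D) : |pot u - pot v| ≤ (gr a D).dist u v := by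
  obtain ⟨w, hw⟩ := (connected hD).exists_walk_length_eq_dist u v
  rw [← hw]
  exact pot_walk w

lemma dist_lr (x : Fin a × Bool) (p : Fin D) :
    (gr a D).dist (Sum.inl x) (Sum.inr p) = p.val + 1 := by
  have hD : 0 < D := by have := p.isLt; omega
  have hup : ∀ n : ℕ, ∀ hn : n < D,
      (gr a D).dist (Sum.inl x) (Sum.inr ⟨n, hn⟩) ≤ n + 1 := by
    intro n
    induction n with
    | zero =>
      intro hn
      have : (gr a D).Adj (Sum.inl x) (Sum.inr ⟨0, hn⟩) := by simp
      rw [SimpleGraph.dist_eq_one_iff_adj.mpr this]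
    | succ n ih =>
      intro hn
      have h1 := ih (by omega)
      have h2 : (gr a D).Adj (Sum.inr ⟨n, by omega⟩) (Sum.inr ⟨n + 1, hn⟩) := by simp
      have h3 := SimpleGraph.dist_eq_one_iff_adj.mpr h2
      have h4 := (connected (a := a) hD).dist_triangle (u := Sum.inl x)
        (v := Sum.inr ⟨n, by omega⟩) (w := Sum.inr ⟨n + 1, hn⟩)
      omega
  have h1 : (gr a D).dist (Sum.inl x) (Sum.inr p) ≤ p.val + 1 := hup p.val p.isLt
  have h2 := pot_dist hD (Sum.inl x) (Sum.inr p)
  simp only [pot] at h2
  rw [abs_le] at h2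
  apply le_antisymm h1
  omega

lemma dist_rl (p : Fin D) (x : Fin a × Bool) :
    (gr a D).dist (Sum.inr p) (Sum.inl x) = p.val + 1 := by
  rw [SimpleGraph.dist_comm, dist_lr]

lemma dist_le (hD : 0 < D) (u v : Vert a D) : (gr a D).dist u v ≤ 2 * D := by
  have h0 : ∀ u : Vert a D, (gr a D).dist u (Sum.inr ⟨0, hD⟩) ≤ D := by
    have hpath : ∀ n : ℕ, ∀ hn : n < D,
        (gr a D).dist (Sum.inr ⟨n, hn⟩) (Sum.inr ⟨0, hD⟩) ≤ n := by
      intro n
      induction n with
      | zero => intro _; simp
      | succ n ih =>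
        intro hn
        have h1 := ih (by omega)
        have h2 : (gr a D).Adj (Sum.inr ⟨n + 1, hn⟩) (Sum.inr ⟨n, by omega⟩) := by simp
        have h3 := SimpleGraph.dist_eq_one_iff_adj.mpr h2
        have h4 := (connected (a := a) hD).dist_triangle (u := Sum.inr ⟨n + 1, hn⟩)
          (v := Sum.inr ⟨n, by omega⟩) (w := Sum.inr ⟨0, hD⟩)
        omega
    rintro (x | p)
    · rw [dist_lr]
      show 0 + 1 ≤ D
      omega
    · exact (hpath p.val p.isLt).trans p.isLt.le
  have h1 := h0 u
  have h2 := h0 v
  rw [SimpleGraph.dist_comm] at h2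
  have h4 := (connected (a := a) hD).dist_triangle (u := u) (v := Sum.inr ⟨0, hD⟩) (w := v)
  omega

lemma dist_ll_adj {x y : Fin a × Bool} (h : x.1 ≠ y.1) :
    (gr a D).dist (Sum.inl x) (Sum.inl y) = 1 :=
  SimpleGraph.dist_eq_one_iff_adj.mpr (by simpa using h)

lemma closer_good (hD : 0 < D) {x y : Fin a × Bool} (h : x.1 ≠ y.1) :
    nCloser (gr a D) (Sum.inl x) (Sum.inl y) = 2 := by
  classical
  unfold nCloser
  have hset : (univ.filter (fun w : Vert a D =>
      (gr a D).dist w (Sum.inl x) < (gr a D).dist w (Sum.inl y)))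
      = {Sum.inl x, Sum.inl (y.1, !y.2)} := by
    ext w
    simp only [mem_filter, mem_univ, true_and, mem_insert, mem_singleton]
    constructor
    · intro hw
      by_contra hne
      push Not at hne
      rcases w with z | p
      · have hzx : (Sum.inl z : Vert a D) ≠ Sum.inl x := hne.1
        have h1 : 0 < (gr a D).dist (Sum.inl z) (Sum.inl x) :=
          (connected hD).pos_dist_of_ne hzx
        have h2 : (gr a D).dist (Sum.inl z) (Sum.inl y) ≤ 1 := by
          by_cases hzy : z = y
          · subst hzy; simp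
          · have : z.1 ≠ y.1 := by
              intro h'
              by_cases hb : z.2 = y.2
              · exact hzy (Prod.ext h' hb)
              · apply hne.2
                congr 1
                refine Prod.ext h' ?_
                revert hb
                cases z.2 <;> cases y.2 <;> simp
            rw [dist_ll_adj this]
        omega
      · rw [dist_rl, dist_rl] at hw
        omega
    · rintro (rfl | rfl)
      · rw [SimpleGraph.dist_self, dist_ll_adj h]
        norm_num
      · have h1 : (gr a D).dist (Sum.inl (y.1, !y.2)) (Sum.inl x) = 1 :=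
          dist_ll_adj (by simpa using h.symm)
        rw [h1]
        have hne : (Sum.inl (y.1, !y.2) : Vert a D) ≠ Sum.inl y := by
          intro h'
          have := congrArg (fun z : Vert a D => z) h'
          simp only [Sum.inl.injEq] at this
          have h2 := congrArg Prod.snd this
          simp at h2
        have h2 := (connected (a := a) hD).pos_dist_of_ne hne
        have h3 : (gr a D).dist (Sum.inl (y.1, !y.2)) (Sum.inl y) ≠ 1 := by
          intro h'
          have := SimpleGraph.dist_eq_one_iff_adj.mp h'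
          simp at this
        omega
  rw [hset, Finset.card_insert_of_notMem, Finset.card_singleton]
  simp only [mem_singleton, Sum.inl.injEq]
  intro h'
  exact h (by rw [h'])

lemma card_vert : Fintype.card (Vert a D) = 2 * a + D := by
  simp [mul_comm]

lemma sum_ne (i : Fin a) (c : ℝ) : ∑ j : Fin a, (if i ≠ j then c else 0) = ((a : ℝ) - 1) * c := by
  have h : ∀ j : Fin a, (if i ≠ j then c else 0) = c - (if i = j then c else 0) := by
    intro j
    by_cases hij : i = j <;> simp [hij]
  rw [Finset.sum_congr rfl (fun j _ => h j), Finset.sum_sub_distrib, Finset.sum_ite_eq]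
  simp
  ring

lemma sum_ne2 (c : ℝ) : ∑ x : Fin a × Bool, ∑ y : Fin a × Bool, (if x.1 ≠ y.1 then c else 0)
    = 4 * a * ((a : ℝ) - 1) * c := by
  have h : ∀ x : Fin a × Bool, ∑ y : Fin a × Bool, (if x.1 ≠ y.1 then c else 0)
      = 2 * (((a : ℝ) - 1) * c) := by
    intro x
    rw [Fintype.sum_prod_type]
    rw [← sum_ne x.1 c, Finset.mul_sum]
    refine Finset.sum_congr rfl fun j _ => ?_
    by_cases hij : x.1 = j <;> simp [hij]
  rw [Finset.sum_congr rfl (fun x _ => h x)]
  simp
  ring

lemma sum_val_le (m : ℕ) (c : ℝ) (hc : 0 ≤ c) :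
    ∑ q : Fin D, (if q.val = m then c else 0) ≤ c := by
  by_cases hm : m < D
  · have h : ∀ q : Fin D, (if q.val = m then c else 0) = (if q = ⟨m, hm⟩ then c else 0) := by
      intro q
      simp [Fin.ext_iff]
    rw [Finset.sum_congr rfl (fun q _ => h q), Finset.sum_ite_eq']
    simp
  · have h : ∀ q : Fin D, (if q.val = m then c else 0) = 0 := by
      intro q
      have := q.isLt
      rw [if_neg (by omega)]
    rw [Finset.sum_congr rfl (fun q _ => h q)]
    simpa using hc

lemma szeged_lower (hD : 0 < D) (α : ℝ) (c : ℝ) (hc : c ≤ (4 : ℝ) ^ α) :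
    4 * a * ((a : ℝ) - 1) * c ≤ 2 * variableSzeged (gr a D) α := by
  classical
  rw [two_mul_szeged, ← sum_ne2 c, Fintype.sum_sum_type]
  have hnn : ∀ x y : Vert a D, 0 ≤ (if (gr a D).Adj x y then
      ((nCloser (gr a D) x y : ℝ) * (nCloser (gr a D) y x : ℝ)) ^ α else 0) := by
    intro x y
    split_ifs
    · positivity
    · exact le_rfl
  refine le_trans ?_ (le_add_of_nonneg_right (Finset.sum_nonneg fun x _ =>
    Finset.sum_nonneg fun y _ => hnn _ _))
  refine Finset.sum_le_sum fun x _ => ?_
  rw [Fintype.sum_sum_type]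
  refine le_trans ?_ (le_add_of_nonneg_right (Finset.sum_nonneg fun y _ => hnn _ _))
  refine Finset.sum_le_sum fun y _ => ?_
  by_cases hxy : x.1 = y.1
  · simp [hxy]
  · rw [if_pos hxy, if_pos (by simpa using hxy), closer_good hD hxy,
      closer_good hD (Ne.symm hxy)]
    norm_num
    exact hc

lemma wiener_upper (hD : 0 < D) (α : ℝ) (hα : 0 ≤ α) (B : ℝ) (hB : ((2 * D : ℕ) : ℝ) ^ α ≤ B) :
    2 * variableWiener (gr a D) α ≤
      4 * a * ((a : ℝ) - 1) + (4 * a ^ 2 - 4 * a * ((a : ℝ) - 1) + 4 * a * D + D ^ 2) * B := by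
  classical
  have hB0 : 0 ≤ B := le_trans (by positivity) hB
  have hall : ∀ x y : Vert a D, (if x ≠ y then ((gr a D).dist x y : ℝ) ^ α else 0) ≤ B := by
    intro x y
    split_ifs
    · refine le_trans (Real.rpow_le_rpow (by positivity) ?_ hα) hB
      exact_mod_cast dist_le hD x y
    · exact hB0
  rw [two_mul_wiener, Fintype.sum_sum_type]
  have h1 : ∑ x : Fin a × Bool, ∑ y : Vert a D,
      (if (Sum.inl x : Vert a D) ≠ y then ((gr a D).dist (Sum.inl x) y : ℝ) ^ α else 0)
      ≤ (4 * a * ((a : ℝ) - 1) + (4 * a ^ 2 - 4 * a * ((a : ℝ) - 1)) * B) + 2 * a * D * B := by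
    have hx : ∀ x : Fin a × Bool, ∑ y : Vert a D,
        (if (Sum.inl x : Vert a D) ≠ y then ((gr a D).dist (Sum.inl x) y : ℝ) ^ α else 0)
        ≤ (∑ y : Fin a × Bool, ((if x.1 ≠ y.1 then (1 - B) else 0) + B)) + D * B := by
      intro x
      rw [Fintype.sum_sum_type]
      refine add_le_add ?_ ?_
      · refine Finset.sum_le_sum fun y _ => ?_
        by_cases hxy : x.1 = y.1
        · simpa [hxy] using hall (Sum.inl x) (Sum.inl y)
        · have hne : (Sum.inl x : Vert a D) ≠ Sum.inl y := by
            intro h'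
            rw [Sum.inl.injEq] at h'
            exact hxy (by rw [h'])
          rw [if_pos hne, dist_ll_adj hxy, if_pos hxy]
          simp
      · calc _ ≤ ∑ _y : Fin D, B := Finset.sum_le_sum fun y _ => hall _ _
          _ = D * B := by simp
    refine le_trans (Finset.sum_le_sum fun x _ => hx x) ?_
    rw [Finset.sum_add_distrib]
    simp only [Finset.sum_add_distrib]
    rw [sum_ne2 (1 - B)]
    simp
    nlinarith
  have h2 : ∑ p : Fin D, ∑ y : Vert a D,
      (if (Sum.inr p : Vert a D) ≠ y then ((gr a D).dist (Sum.inr p) y : ℝ) ^ α else 0)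
      ≤ D * ((2 * a + D) * B) := by
    calc _ ≤ ∑ _p : Fin D, ∑ _y : Vert a D, B :=
          Finset.sum_le_sum fun p _ => Finset.sum_le_sum fun y _ => hall _ _
      _ = D * ((2 * a + D) * B) := by
          rw [Finset.sum_const, Finset.sum_const, Finset.card_univ, Finset.card_univ, card_vert]
          simp
  nlinarith

lemma szeged_upper (hD : 0 < D) :
    2 * variableSzeged (gr a D) (1 / 2) ≤
      8 * a ^ 2 + (4 * a + 2 * D) * ((2 : ℝ) * a + D) := by
  classical
  set n : ℝ := (2 : ℝ) * a + D with hn
  have hn0 : 0 ≤ n := by positivity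
  have hcl : ∀ x y : Vert a D,
      ((nCloser (gr a D) x y : ℝ) * (nCloser (gr a D) y x : ℝ)) ^ ((1 : ℝ) / 2) ≤ n := by
    intro x y
    have h1 : (nCloser (gr a D) x y : ℝ) ≤ n := by
      have := nCloser_le (gr a D) x y
      rw [card_vert] at this
      rw [hn]
      exact_mod_cast this
    have h2 : (nCloser (gr a D) y x : ℝ) ≤ n := by
      have := nCloser_le (gr a D) y x
      rw [card_vert] at this
      rw [hn]
      exact_mod_cast this
    rw [← Real.sqrt_eq_rpow, Real.sqrt_le_left hn0, sq]
    exact mul_le_mul h1 h2 (by positivity) hn0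
  rw [two_mul_szeged, Fintype.sum_sum_type]
  have h1 : ∑ x : Fin a × Bool, ∑ y : Vert a D,
      (if (gr a D).Adj (Sum.inl x) y then
        ((nCloser (gr a D) (Sum.inl x) y : ℝ) * (nCloser (gr a D) y (Sum.inl x) : ℝ))
          ^ ((1 : ℝ) / 2) else 0)
      ≤ 2 * a * (2 * a * 2 + n) := by
    have hx : ∀ x : Fin a × Bool, ∑ y : Vert a D,
      (if (gr a D).Adj (Sum.inl x) y then
        ((nCloser (gr a D) (Sum.inl x) y : ℝ) * (nCloser (gr a D) y (Sum.inl x) : ℝ))
          ^ ((1 : ℝ) / 2) else 0) ≤ 2 * a * 2 + n := by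
      intro x
      rw [Fintype.sum_sum_type]
      refine add_le_add ?_ ?_
      · calc _ ≤ ∑ _y : Fin a × Bool, (2 : ℝ) := by
              refine Finset.sum_le_sum fun y _ => ?_
              by_cases hxy : x.1 = y.1
              · simp [hxy]
              · rw [if_pos (by simpa using hxy), closer_good hD hxy,
                  closer_good hD (Ne.symm hxy), ← Real.sqrt_eq_rpow]
                norm_num
          _ = 2 * a * 2 := by simp; ring
      · refine le_trans ?_ (sum_val_le (D := D) 0 n hn0)
        refine Finset.sum_le_sum fun q _ => ?_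
        by_cases hq : q.val = 0
        · rw [if_pos (by simpa using hq), if_pos hq]
          exact hcl _ _
        · rw [if_neg (by simpa using hq), if_neg hq]
    calc _ ≤ ∑ _x : Fin a × Bool, (2 * a * 2 + n) := Finset.sum_le_sum fun x _ => hx x
      _ = _ := by simp; ring
  have h2 : ∑ p : Fin D, ∑ y : Vert a D,
      (if (gr a D).Adj (Sum.inr p) y then
        ((nCloser (gr a D) (Sum.inr p) y : ℝ) * (nCloser (gr a D) y (Sum.inr p) : ℝ))
          ^ ((1 : ℝ) / 2) else 0)
      ≤ 2 * a * n + D * (2 * n) := by
    have hp : ∀ p : Fin D, ∑ y : Vert a D,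
      (if (gr a D).Adj (Sum.inr p) y then
        ((nCloser (gr a D) (Sum.inr p) y : ℝ) * (nCloser (gr a D) y (Sum.inr p) : ℝ))
          ^ ((1 : ℝ) / 2) else 0) ≤ (if p.val = 0 then 2 * a * n else 0) + 2 * n := by
      intro p
      rw [Fintype.sum_sum_type]
      refine add_le_add ?_ ?_
      · by_cases hp0 : p.val = 0
        · rw [if_pos hp0]
          calc _ ≤ ∑ _y : Fin a × Bool, n := by
                refine Finset.sum_le_sum fun y _ => ?_
                rw [if_pos (by simpa using hp0)]
                exact hcl _ _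
            _ = _ := by
              rw [Finset.sum_const, Finset.card_univ, Fintype.card_prod, Fintype.card_fin,
                Fintype.card_bool, nsmul_eq_mul]; push_cast; ring
        · rw [if_neg hp0]
          refine le_of_eq (Finset.sum_eq_zero fun y _ => ?_)
          rw [if_neg (by simpa using hp0)]
      · calc _ ≤ ∑ q : Fin D, ((if q.val = p.val + 1 then n else 0)
                + (if q.val = p.val - 1 then n else 0)) := by
              refine Finset.sum_le_sum fun q _ => ?_
              have hA : 0 ≤ (if q.val = p.val + 1 then n else 0) := by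
                split_ifs <;> simp [hn0]
              have hB : 0 ≤ (if q.val = p.val - 1 then n else 0) := by
                split_ifs <;> simp [hn0]
              by_cases hpq : (gr a D).Adj (Sum.inr p) (Sum.inr q)
              · rw [if_pos hpq]
                refine le_trans (hcl _ _) ?_
                rcases hpq with h | h
                · rw [if_pos h.symm]
                  linarith
                · rw [if_pos (show q.val = p.val - 1 by omega)]
                  linarith
              · rw [if_neg hpq]
                linarith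
          _ ≤ n + n := by
              rw [Finset.sum_add_distrib]
              exact add_le_add (sum_val_le _ n hn0) (sum_val_le _ n hn0)
          _ = 2 * n := by ring
    refine le_trans (Finset.sum_le_sum fun p _ => hp p) ?_
    rw [Finset.sum_add_distrib]
    refine add_le_add (sum_val_le 0 _ (by positivity)) ?_
    simp
  nlinarith

lemma wiener_lower (K : ℕ) (hK : 0 < K) (R : ℝ)
    (hR : R ≤ (K : ℝ) ^ ((1 : ℝ) / 2)) :
    4 * a * (K * R) ≤ 2 * variableWiener (gr a (2 * K)) (1 / 2) := by
  classical
  rw [two_mul_wiener, Fintype.sum_sum_type]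
  have hnn : ∀ x y : Vert a (2 * K), 0 ≤ (if x ≠ y then
      ((gr a (2 * K)).dist x y : ℝ) ^ ((1 : ℝ) / 2) else 0) := by
    intro x y
    split_ifs
    · positivity
    · exact le_rfl
  have hq : K * R ≤ ∑ q : Fin (2 * K), ((q.val + 1 : ℕ) : ℝ) ^ ((1 : ℝ) / 2) := by
    rw [Fin.sum_univ_eq_sum_range (fun q => ((q + 1 : ℕ) : ℝ) ^ ((1 : ℝ) / 2)) (2 * K), two_mul,
      Finset.sum_range_add]
    refine le_trans ?_ (le_add_of_nonneg_left (Finset.sum_nonneg fun q _ => by positivity))
    calc (K : ℝ) * R = ∑ _q ∈ Finset.range K, R := by simp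
      _ ≤ _ := by
        refine Finset.sum_le_sum fun q _ => ?_
        refine le_trans hR (Real.rpow_le_rpow (by positivity) ?_ (by norm_num))
        push_cast
        linarith [(Nat.cast_nonneg q : (0 : ℝ) ≤ q)]
  have h1 : 2 * a * (K * R) ≤ ∑ x : Fin a × Bool, ∑ y : Vert a (2 * K),
      (if (Sum.inl x : Vert a (2 * K)) ≠ y then
        ((gr a (2 * K)).dist (Sum.inl x) y : ℝ) ^ ((1 : ℝ) / 2) else 0) := by
    calc 2 * a * (K * R) = ∑ _x : Fin a × Bool, (K * R) := by
              rw [Finset.sum_const, Finset.card_univ, Fintype.card_prod, Fintype.card_fin,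
                Fintype.card_bool, nsmul_eq_mul]; push_cast; ring
      _ ≤ _ := by
        refine Finset.sum_le_sum fun x _ => ?_
        rw [Fintype.sum_sum_type]
        refine le_trans ?_ (le_add_of_nonneg_left (Finset.sum_nonneg fun y _ => hnn _ _))
        refine le_trans hq (le_of_eq (Finset.sum_congr rfl fun q _ => ?_))
        rw [if_pos (by simp), dist_lr]
  have h2 : 2 * a * (K * R) ≤ ∑ p : Fin (2 * K), ∑ y : Vert a (2 * K),
      (if (Sum.inr p : Vert a (2 * K)) ≠ y then
        ((gr a (2 * K)).dist (Sum.inr p) y : ℝ) ^ ((1 : ℝ) / 2) else 0) := by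
    have hsum : ∑ p : Fin (2 * K), (2 * a * ((p.val + 1 : ℕ) : ℝ) ^ ((1 : ℝ) / 2)) ≤
        ∑ p : Fin (2 * K), ∑ y : Vert a (2 * K),
      (if (Sum.inr p : Vert a (2 * K)) ≠ y then
        ((gr a (2 * K)).dist (Sum.inr p) y : ℝ) ^ ((1 : ℝ) / 2) else 0) := by
      refine Finset.sum_le_sum fun p _ => ?_
      rw [Fintype.sum_sum_type]
      refine le_trans ?_ (le_add_of_nonneg_right (Finset.sum_nonneg fun y _ => hnn _ _))
      calc 2 * a * ((p.val + 1 : ℕ) : ℝ) ^ ((1 : ℝ) / 2)
          = ∑ _y : Fin a × Bool, ((p.val + 1 : ℕ) : ℝ) ^ ((1 : ℝ) / 2) := by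
              rw [Finset.sum_const, Finset.card_univ, Fintype.card_prod, Fintype.card_fin,
                Fintype.card_bool, nsmul_eq_mul]; push_cast; ring
        _ ≤ _ := by
          refine le_of_eq (Finset.sum_congr rfl fun y _ => ?_)
          rw [if_pos (by simp), dist_rl]
    refine le_trans ?_ hsum
    rw [← Finset.mul_sum]
    exact mul_le_mul_of_nonneg_left hq (by positivity)
  nlinarith

end Graph

/-- There is a connected non-complete finite graph for which the variable Szeged index and the
variable Wiener index agree at two different real exponents. -/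
theorem result : ∃ (V : Type) (_ : Fintype V) (G : SimpleGraph V), G.Connected ∧ G ≠ ⊤ ∧
    ∃ α β : ℝ, α ≠ β ∧ variableSzeged G α = variableWiener G α ∧
      variableSzeged G β = variableWiener G β := by
  have hD : 0 < 2 * 10 ^ 12 := by norm_num
  have hconn : (gr (5 * 10 ^ 16) (2 * 10 ^ 12)).Connected := connected hD
  have hne : gr (5 * 10 ^ 16) (2 * 10 ^ 12) ≠ ⊤ := by
    intro h
    have h1 : (⊤ : SimpleGraph (Vert (5 * 10 ^ 16) (2 * 10 ^ 12))).Adj
        (Sum.inl (⟨0, by norm_num⟩, false)) (Sum.inl (⟨0, by norm_num⟩, true)) := by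
      simp
    rw [← h] at h1
    simp at h1
  refine ⟨Vert (5 * 10 ^ 16) (2 * 10 ^ 12), inferInstance, gr (5 * 10 ^ 16) (2 * 10 ^ 12), hconn,
    hne, ?_⟩
  set G := gr (5 * 10 ^ 16) (2 * 10 ^ 12) with hG
  set h : ℝ → ℝ := fun α => variableSzeged G α - variableWiener G α with hh
  have hcont : Continuous h := (continuous_szeged G hconn).sub (continuous_wiener G hconn)
  have h0 : h 0 < 0 := sub_neg.mpr (zero_neg G hne)
  have h14 : 0 < h (1 / 4) := by
    have hl := szeged_lower (a := 5 * 10 ^ 16) hD (1 / 4) (7 / 5) (by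
      have : ((7 : ℝ) / 5) = (((7 : ℝ) / 5) ^ (4 : ℝ)) ^ ((1 : ℝ) / 4) := by
        rw [← Real.rpow_mul (by norm_num)]
        norm_num
      rw [this]
      refine Real.rpow_le_rpow (by positivity) ?_ (by norm_num)
      norm_num)
    have hu := wiener_upper (a := 5 * 10 ^ 16) hD (1 / 4) (by norm_num) 2000 (by
      have : (2000 : ℝ) = ((2000 : ℝ) ^ (4 : ℝ)) ^ ((1 : ℝ) / 4) := by
        rw [← Real.rpow_mul (by norm_num)]
        norm_num
      rw [this]
      refine Real.rpow_le_rpow (by positivity) ?_ (by norm_num)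
      norm_num)
    simp only [hh]
    rw [← hG] at hl hu
    norm_num at hl hu ⊢
    linarith
  have h12 : h (1 / 2) < 0 := by
    have hu := szeged_upper (a := 5 * 10 ^ 16) hD
    have hl := wiener_lower (a := 5 * 10 ^ 16) (10 ^ 12) (by norm_num) (10 ^ 6) (by
      rw [← Real.sqrt_eq_rpow]
      refine Real.le_sqrt_of_sq_le ?_
      norm_num)
    simp only [hh]
    rw [← hG] at hl hu
    norm_num at hl hu ⊢
    linarith
  obtain ⟨α, hα1, hα2⟩ : (0 : ℝ) ∈ h '' Set.Icc 0 (1 / 4) :=
    intermediate_value_Icc (by norm_num) hcont.continuousOn ⟨h0.le, h14.le⟩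
  obtain ⟨β, hβ1, hβ2⟩ : (0 : ℝ) ∈ h '' Set.Icc (1 / 4) (1 / 2) :=
    intermediate_value_Icc' (by norm_num) hcont.continuousOn ⟨h12.le, h14.le⟩
  refine ⟨α, β, ?_, sub_eq_zero.mp hα2, sub_eq_zero.mp hβ2⟩
  rintro rfl
  have : α = 1 / 4 := le_antisymm hα1.2 hβ1.1
  rw [this] at hα2
  exact absurd hα2 h14.ne'

end Pool.Agent.Results.MP_dd6dde_co.TwoZeros
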